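import Mathlib
import Pool.Agent.Q3.BestPhi.Inf

/-!
# MP_8d3206_nt: the growth exponent of the best approximations to `(φ₄, φ₄²)` is not `φ₄`
-/

set_option autoImplicit false

open Filter

namespace Pool.Agent.Results.MP_8d3206_nt.NotPhi

/-- The sup-norm on `ℝ²`. -/
noncomputable def supNorm (v : ℝ × ℝ) : ℝ := max |v.1| |v.2|

/-- The Euclidean norm on `ℝ²`. -/
noncomputable def eucNorm (v : ℝ × ℝ) : ℝ := √(v.1 ^ 2 + v.2 ^ 2)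

/-- `z = (x, y₁, y₂) ∈ ℤ³` is a best approximation vector to `Θ` for the norm `N`: it is not `0`, and
the only `z' = (x', y')` with `|x'| ≤ |x|` and `N (x' Θ - y') ≤ N (x Θ - y)` are `0` and `± z`. -/
def Best (N : ℝ × ℝ → ℝ) (Θ : ℝ × ℝ) (z : ℤ × ℤ × ℤ) : Prop :=
  z ≠ 0 ∧ ∀ z' : ℤ × ℤ × ℤ, |z'.1| ≤ |z.1| →
    N (z'.1 * Θ.1 - z'.2.1, z'.1 * Θ.2 - z'.2.2) ≤ N (z.1 * Θ.1 - z.2.1, z.1 * Θ.2 - z.2.2) →
      z' = 0 ∨ z' = z ∨ z' = -z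

/-- `m` is the first coordinate `|x|` of a best approximation vector (up to sign, `x = m`). -/
def IsDenom (N : ℝ × ℝ → ℝ) (Θ : ℝ × ℝ) (m : ℕ) : Prop :=
  ∃ y₁ y₂ : ℤ, Best N Θ ((m : ℤ), y₁, y₂)

/-- `M_ν`, `ν ≥ 1`: the `ν`-th smallest first coordinate of a best approximation vector. -/
noncomputable def M (N : ℝ × ℝ → ℝ) (Θ : ℝ × ℝ) (ν : ℕ) : ℕ := Nat.nth (IsDenom N Θ) (ν - 1)

/-- `G(Θ) = liminf M_ν ^ (1/ν)`, in the extended reals. -/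
noncomputable def G (N : ℝ × ℝ → ℝ) (Θ : ℝ × ℝ) : EReal :=
  liminf (fun ν : ℕ => (((M N Θ ν : ℝ) ^ (1 / (ν : ℝ)) : ℝ) : EReal)) atTop

/-- The Padovan sequence `0, 0, 1, 0, 1, 1, 1, 2, 2, 3, 4, 5, 7, 9, 12, …`. -/
def pad : ℕ → ℤ
  | 0 => 0
  | 1 => 0
  | 2 => 1
  | n + 3 => pad (n + 1) + pad n

theorem pad_eq (n : ℕ) : pad n = Q3.BestPhi.P n := by
  induction n using Nat.strong_induction_on with
  | _ n ih =>
    match n with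
    | 0 => rfl
    | 1 => rfl
    | 2 => rfl
    | n + 3 => rw [pad, Q3.BestPhi.P_rec, ih (n + 1) (by omega), ih n (by omega)]

/-- from norms to squared norms -/
theorem best_iff (N : ℝ × ℝ → ℝ) (q : ℝ → ℝ → ℝ) (hN : ∀ e g e' g', N (e, g) ≤ N (e', g') ↔ q e g ≤ q e' g')
    (φ : ℝ) (x a b : ℤ) : Best N (φ, φ ^ 2) (x, a, b) ↔ Q3.BestPhi.BestQ φ q x a b := by
  unfold Best Q3.BestPhi.BestQ
  have hz : ((x, a, b) : ℤ × ℤ × ℤ) ≠ 0 ↔ ¬ (x = 0 ∧ a = 0 ∧ b = 0) := by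
    rw [Ne, Prod.ext_iff, Prod.ext_iff]
    rfl
  rw [hz]
  refine and_congr_right fun _ => ?_
  constructor
  · intro h x' a' b' h1 h2
    have h3 := h (x', a', b') h1 (by
      rw [hN]
      simp only
      rw [mul_comm (x' : ℝ) φ, mul_comm (x' : ℝ) (φ ^ 2), mul_comm (x : ℝ) φ, mul_comm (x : ℝ) (φ ^ 2)]
      exact h2)
    rw [Prod.ext_iff, Prod.ext_iff, Prod.ext_iff, Prod.ext_iff, Prod.ext_iff, Prod.ext_iff] at h3
    exact h3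
  · rintro h ⟨x', a', b'⟩ h1 h2
    have h3 := h x' a' b' h1 (by
      rw [hN] at h2
      simp only at h2
      rw [mul_comm (x' : ℝ) φ, mul_comm (x' : ℝ) (φ ^ 2), mul_comm (x : ℝ) φ,
        mul_comm (x : ℝ) (φ ^ 2)] at h2
      exact h2)
    rw [Prod.ext_iff, Prod.ext_iff, Prod.ext_iff, Prod.ext_iff, Prod.ext_iff, Prod.ext_iff]
    exact h3

theorem sup_iff (e g e' g' : ℝ) : supNorm (e, g) ≤ supNorm (e', g') ↔
    max (e ^ 2) (g ^ 2) ≤ max (e' ^ 2) (g' ^ 2) := by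
  have key : ∀ s t : ℝ, max (s ^ 2) (t ^ 2) = (max |s| |t|) ^ 2 := by
    intro s t
    rcases le_total |s| |t| with h | h
    · rw [max_eq_right h, sq_abs, max_eq_right (sq_le_sq.2 h)]
    · rw [max_eq_left h, sq_abs, max_eq_left (sq_le_sq.2 h)]
  rw [key, key]
  unfold supNorm
  simp only
  rw [sq_le_sq, abs_of_nonneg (le_max_of_le_left (abs_nonneg e)),
    abs_of_nonneg (le_max_of_le_left (abs_nonneg e'))]

theorem euc_iff (e g e' g' : ℝ) : eucNorm (e, g) ≤ eucNorm (e', g') ↔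
    e ^ 2 + g ^ 2 ≤ e' ^ 2 + g' ^ 2 := by
  unfold eucNorm
  simp only
  exact Real.sqrt_le_sqrt_iff (by positivity)

theorem main (N : ℝ × ℝ → ℝ) (q : ℝ → ℝ → ℝ) (hN : ∀ e g e' g', N (e, g) ≤ N (e', g') ↔ q e g ≤ q e' g')
    {φ α β : ℝ} (h3 : φ ^ 3 = φ + 1) (hq : Q3.BestPhi.GoodQ φ q α β) :
    {m | IsDenom N (φ, φ ^ 2) m}.Infinite ∧
    (∃ X : ℤ, ∀ x y₁ y₂ : ℤ, X ≤ x → Best N (φ, φ ^ 2) (x, y₁, y₂) →
      ∃ k, x = pad k ∧ y₁ = pad (k + 1) ∧ y₂ = pad (k + 2)) ∧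
    ((7 / 5 : ℝ) : EReal) ≤ G N (φ, φ ^ 2) := by
  have hpred : IsDenom N (φ, φ ^ 2) = fun m : ℕ => ∃ a b : ℤ, Q3.BestPhi.BestQ φ q m a b := by
    funext m
    apply propext
    unfold IsDenom
    exact exists_congr fun a => exists_congr fun b => best_iff N q hN φ m a b
  obtain ⟨h1, h2⟩ := Q3.BestPhi.main h3 hq
  refine ⟨?_, ⟨Q3.BestPhi.P 40, ?_⟩, ?_⟩
  · rw [hpred]; exact h1
  · intro x a b hx hb
    rw [best_iff N q hN] at hb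
    obtain ⟨K, hK, k1, k2⟩ := Q3.BestPhi.exists_K x hx
    obtain ⟨k, _, e1, e2, e3⟩ := Q3.BestPhi.unit_of_best h3 hq hb hK k1 k2
    exact ⟨k, by rw [pad_eq]; exact e1, by rw [pad_eq]; exact e2, by rw [pad_eq]; exact e3⟩
  · unfold G M
    rw [hpred]
    rw [← Filter.liminf_nat_add _ 1]
    refine h2.trans (le_of_eq ?_)
    congr 1
    funext ν
    push_cast
    rfl

/-- **`G(Θ) ≥ 7/5 > φ₄` for the sup-norm and for the Euclidean norm.** -/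
theorem result : ∃ φ : ℝ, φ ^ 3 = φ + 1 ∧ (∀ t : ℝ, t ^ 3 = t + 1 → t = φ) ∧ φ < 7 / 5 ∧
    ∀ N : ℝ × ℝ → ℝ, N = supNorm ∨ N = eucNorm →
      {m | IsDenom N (φ, φ ^ 2) m}.Infinite ∧
      (∃ X : ℤ, ∀ x y₁ y₂ : ℤ, X ≤ x → Best N (φ, φ ^ 2) (x, y₁, y₂) →
        ∃ k, x = pad k ∧ y₁ = pad (k + 1) ∧ y₂ = pad (k + 2)) ∧
      ((7 / 5 : ℝ) : EReal) ≤ G N (φ, φ ^ 2) ∧ G N (φ, φ ^ 2) ≠ (φ : EReal) := by
  obtain ⟨φ, -, hφ⟩ : ∃ φ ∈ Set.Icc (1 : ℝ) 2, φ ^ 3 - φ = 1 := by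
    have hcont : ContinuousOn (fun t : ℝ => t ^ 3 - t) (Set.Icc 1 2) := by fun_prop
    exact intermediate_value_Icc (by norm_num) hcont ⟨by norm_num, by norm_num⟩
  have h3 : φ ^ 3 = φ + 1 := by linarith
  have l1 := Q3.BestPhi.lo h3
  have l2 := Q3.BestPhi.hi h3
  refine ⟨φ, h3, ?_, by linarith, ?_⟩
  · intro t ht
    have t1 := Q3.BestPhi.lo ht
    have e : (t - φ) * (t ^ 2 + t * φ + φ ^ 2 - 1) = 0 := by
      linear_combination ht - h3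
    rcases mul_eq_zero.1 e with h | h
    · linarith
    · nlinarith
  · intro N hN
    have hlt : (φ : EReal) < ((7 / 5 : ℝ) : EReal) := by
      rw [EReal.coe_lt_coe_iff]; linarith
    rcases hN with rfl | rfl
    · obtain ⟨a, b, c⟩ := main supNorm _ sup_iff h3 (Q3.BestPhi.good_sup h3)
      exact ⟨a, b, c, (hlt.trans_le c).ne'⟩
    · obtain ⟨a, b, c⟩ := main eucNorm _ euc_iff h3 (Q3.BestPhi.good_euc h3)
      exact ⟨a, b, c, (hlt.trans_le c).ne'⟩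

end Pool.Agent.Results.MP_8d3206_nt.NotPhi
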